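import Mathlib

set_option autoImplicit false

namespace Pool.Agent.H498Z.Tri

open Module

/-- Euclidean three-space. -/
abbrev E3 : Type := EuclideanSpace ℝ (Fin 3)

/-- A convex polyhedron: the convex hull of finitely many points of `ℝ³`, with nonempty interior. -/
def IsConvexPolyhedron (P : Set E3) : Prop :=
  (∃ V : Finset E3, P = convexHull ℝ (V : Set E3)) ∧ (interior P).Nonempty

/-- `F` is a two-dimensional face of `P`: a nonempty set of maximisers over `P` of a linear
functional whose affine span has dimension two. -/
def IsTwoFace (P F : Set E3) : Prop :=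
  IsExposed ℝ P F ∧ F.Nonempty ∧ finrank ℝ (vectorSpan ℝ F) = 2

/-- The triple product `(u × v) · w`, the determinant of the matrix with rows `u`, `v`, `w`. -/
def triple (u v w : E3) : ℝ :=
  (u 1 * v 2 - u 2 * v 1) * w 0 + (u 2 * v 0 - u 0 * v 2) * w 1 + (u 0 * v 1 - u 1 * v 0) * w 2

/-- `F` is the image of the triangle with vertices `t 0`, `t 1`, `t 2` under an isometry `g` of
`ℝ³` which carries the orientation of the triangle given by the order `t 0, t 1, t 2` to the
outward orientation of `F` as a face of `P`: the normal vector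
`(g (t 1) - g (t 0)) × (g (t 2) - g (t 0))` of `F` points away from `P`, that is, the vertices
`g (t 0), g (t 1), g (t 2)` appear counterclockwise when seen from outside `P`. -/
def IsOutwardCopy (t : Fin 3 → E3) (P F : Set E3) : Prop :=
  ∃ g : E3 ≃ᵢ E3, F = g '' convexHull ℝ (Set.range t) ∧
    ∀ x ∈ P, triple (g (t 1) - g (t 0)) (g (t 2) - g (t 0)) (x - g (t 0)) ≤ 0

end Pool.Agent.H498Z.Tri
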