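import Mathlib
import Pool.Agent.H498Z.Tri.Defs

set_option autoImplicit false

namespace Pool.Agent.H498Z.Tri

open Module InnerProductGeometry Real

lemma triple_cyc (u v w : E3) : triple u v w = triple v w u := by unfold triple; ring
lemma triple_swap (u v w : E3) : triple u v w = - triple w v u := by unfold triple; ring
lemma triple_swap12 (u v w : E3) : triple u v w = - triple v u w := by unfold triple; ring

/-- the triple product as a linear functional in the last argument -/
noncomputable def tl (u v : E3) : E3 →ₗ[ℝ] ℝ where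
  toFun w := triple u v w
  map_add' a b := by simp [triple]; ring
  map_smul' c a := by simp [triple]; ring

@[simp] lemma tl_apply (u v w : E3) : tl u v w = triple u v w := rfl

lemma cramer (u v n w : E3) :
    triple u v n • w = triple w v n • u + triple u w n • v + triple u v w • n := by
  ext i
  fin_cases i <;> simp [triple] <;> ring

lemma exists_triple_ne {u v : E3} (h : LinearIndependent ℝ ![u, v]) : ∃ n, triple u v n ≠ 0 := by
  by_contra hc
  push Not at hc
  have h0 := hc !₂[1, 0, 0]
  have h1 := hc !₂[0, 1, 0]
  have h2 := hc !₂[0, 0, 1]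
  simp [triple] at h0 h1 h2
  rw [LinearIndependent.pair_iff] at h
  have key : ∀ j : Fin 3, v j = 0 ∧ -u j = 0 := by
    intro j
    apply h (v j) (-u j)
    ext i
    fin_cases i <;> fin_cases j <;> simp <;> linarith
  have hu : u = 0 := by
    ext j
    have := (key j).2
    simp at this
    simpa using this
  have := (h 1 0 (by simp [hu])).1
  norm_num at this

lemma indep_of_triple {u v n : E3} (h : triple u v n ≠ 0) : LinearIndependent ℝ ![u, v] := by
  rw [LinearIndependent.pair_iff]
  intro a b hab
  have e0 := congrArg (fun z : E3 => z 0) hab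
  have e1 := congrArg (fun z : E3 => z 1) hab
  have e2 := congrArg (fun z : E3 => z 2) hab
  simp at e0 e1 e2
  have ha : a * triple u v n = 0 := by
    unfold triple
    linear_combination (v 1 * n 2 - v 2 * n 1) * e0 + (v 2 * n 0 - v 0 * n 2) * e1 +
      (v 0 * n 1 - v 1 * n 0) * e2
  have hb : b * triple u v n = 0 := by
    unfold triple
    linear_combination (-(u 1 * n 2 - u 2 * n 1)) * e0 - (u 2 * n 0 - u 0 * n 2) * e1 -
      (u 0 * n 1 - u 1 * n 0) * e2
  exact ⟨(mul_eq_zero.1 ha).resolve_right h, (mul_eq_zero.1 hb).resolve_right h⟩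

lemma angle_cone {x y z : E3} (hy : y ≠ 0) {k a b : ℝ} (hk : 0 < k) (ha : 0 ≤ a) (hb : 0 ≤ b)
    (h : k • y = a • x + b • z) : angle x z = angle x y + angle y z := by
  apply angle_eq_angle_add_add_angle_add_of_mem_span hy
  rw [Submodule.mem_span_pair]
  refine ⟨⟨a / k, div_nonneg ha hk.le⟩, ⟨b / k, div_nonneg hb hk.le⟩, ?_⟩
  have : y = (1 / k) • (k • y) := by rw [smul_smul]; field_simp; simp
  rw [this, h]
  change (a / k) • x + (b / k) • z = _
  simp only [smul_add, smul_smul]
  congr 2 <;> ring

lemma ne_zero_of_triple {u v w : E3} (h : triple u v w ≠ 0) : u ≠ 0 ∧ v ≠ 0 ∧ w ≠ 0 := by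
  refine ⟨?_, ?_, ?_⟩ <;> rintro rfl <;> simp [triple] at h

lemma angle_strict {x y z : E3} (h : triple x y z ≠ 0) : angle x z < angle x y + angle y z := by
  have hy := (ne_zero_of_triple h).2.1
  refine lt_of_le_of_ne (angle_le_angle_add_angle x y z) ?_
  intro he
  rcases (angle_eq_angle_add_angle_iff hy).1 he with h1 | h1
  · rw [angle_eq_pi_iff] at h1
    obtain ⟨_, r, _, rfl⟩ := h1
    apply h
    simp [triple]; ring
  · rw [Submodule.mem_span_pair] at h1
    obtain ⟨a, b, rfl⟩ := h1
    apply h
    simp [triple, NNReal.smul_def]; ring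

/-- one step of the perimeter estimate -/
lemma step (b c u v w : E3) (hnv : 0 < - triple b c v)
    (hnw : 0 ≤ - triple b c w) (hy : 0 < - triple u v c) (hy' : 0 ≤ - triple v w c)
    (hd : 0 < - triple u v w) :
    angle v w + angle w ((- triple b c v) • w - (- triple b c w) • v) +
      angle ((- triple b c v) • w - (- triple b c w) • v) c ≤
    angle v ((- triple b c u) • v - (- triple b c v) • u) +
      angle ((- triple b c u) • v - (- triple b c v) • u) c := by
  set p := (- triple b c u) • v - (- triple b c v) • u with hp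
  set p' := (- triple b c v) • w - (- triple b c w) • v with hp'
  have hw : w ≠ 0 := (ne_zero_of_triple (u := u) (v := v) (w := w) (by linarith)).2.2
  have hp0 : p' ≠ 0 := by
    intro h0
    have : triple u v p' = triple b c v * (- triple u v w) := by
      rw [hp']; simp [triple]; ring
    rw [h0] at this
    have h2 : triple u v 0 = 0 := by simp [triple]
    rw [h2] at this
    nlinarith
  have e1 : angle v p' = angle v w + angle w p' :=
    angle_cone hw hnv hnw zero_le_one (by rw [hp']; module)
  have e2 : angle p c = angle p p' + angle p' c := by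
    refine angle_cone hp0 hy hy' (mul_nonneg hd.le hnv.le) ?_
    rw [hp, hp']
    ext i
    fin_cases i <;> simp [triple] <;> ring
  have e3 := angle_le_angle_add_angle v p p'
  linarith

lemma first_step (b c v w : E3) (hnv : 0 < - triple b c v)
    (hnw : 0 ≤ - triple b c w) (hd : 0 < - triple c v w) :
    angle c v + angle v w + angle w ((- triple b c v) • w - (- triple b c w) • v) +
      angle ((- triple b c v) • w - (- triple b c w) • v) c < 2 * π := by
  set p' := (- triple b c v) • w - (- triple b c w) • v with hp'
  have hw : w ≠ 0 := (ne_zero_of_triple (u := c) (v := v) (w := w) (by linarith)).2.2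
  have e1 : angle v p' = angle v w + angle w p' :=
    angle_cone hw hnv hnw zero_le_one (by rw [hp']; module)
  have h1 : triple v (-c) p' ≠ 0 := by
    have : triple v (-c) p' = - (triple b c v * triple c v w) := by
      rw [hp']; simp [triple]; ring
    rw [this]
    nlinarith
  have e2 := angle_strict h1
  rw [angle_neg_right, angle_neg_left] at e2
  rw [angle_comm c v, angle_comm p' c]
  linarith

lemma last_step (b c v w : E3) (hb : b ≠ 0) (hy : 0 < - triple v w c) (hx : 0 ≤ - triple v w b) :
    angle b c ≤ angle ((- triple b c v) • w - (- triple b c w) • v) c := by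
  set p' := (- triple b c v) • w - (- triple b c w) • v with hp'
  have e : angle p' c = angle p' b + angle b c := by
    refine angle_cone hb hy zero_le_one hx ?_
    rw [hp']
    ext i
    fin_cases i <;> simp [triple] <;> ring
  have := angle_nonneg p' b
  linarith

/-- six consecutive face angles at a vertex of a convex cone add up to less than `2π` -/
lemma hexagon (b c u1 u2 u3 u4 u5 : E3)
    (n1 : 0 < - triple b c u1) (n2 : 0 < - triple b c u2) (n3 : 0 < - triple b c u3)
    (n4 : 0 < - triple b c u4) (n5 : 0 ≤ - triple b c u5)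
    (d1 : 0 < - triple c u1 u2) (d2 : 0 < - triple u1 u2 u3) (d3 : 0 < - triple u2 u3 u4)
    (d4 : 0 < - triple u3 u4 u5)
    (y3 : 0 < - triple u2 u3 c) (y4 : 0 < - triple u3 u4 c)
    (y5 : 0 < - triple u4 u5 c) (x5 : 0 ≤ - triple u4 u5 b) :
    angle b c + angle c u1 + angle u1 u2 + angle u2 u3 + angle u3 u4 + angle u4 u5 < 2 * π := by
  have y2 : 0 < - triple u1 u2 c := by rw [← triple_cyc]; exact d1
  have s1 := first_step b c u1 u2 n1 n2.le d1
  have s2 := step b c u1 u2 u3 n2 n3.le y2 y3.le d2
  have s3 := step b c u2 u3 u4 n3 n4.le y3 y4.le d3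
  have s4 := step b c u3 u4 u5 n4 n5 y4 y5.le d4
  have hb : b ≠ 0 := (ne_zero_of_triple (u := b) (v := c) (w := u1) (by linarith)).1
  have s5 := last_step b c u4 u5 hb y5 x5
  have := angle_nonneg u5 ((- triple b c u4) • u5 - (- triple b c u5) • u4)
  linarith

/-- the angle of a triangle from its sides -/
noncomputable def ang (p r q : ℝ) : ℝ := Real.arccos ((p ^ 2 + r ^ 2 - q ^ 2) / 2 / (p * r))

lemma angle_eq_ang (A B C : E3) :
    angle (B - A) (C - A) = ang (dist A B) (dist C A) (dist B C) := by
  unfold ang angle
  have n1 : ‖B - A‖ = dist A B := by rw [dist_comm, dist_eq_norm]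
  have n2 : ‖C - A‖ = dist C A := by rw [dist_eq_norm]
  have n3 : ‖(B - A) - (C - A)‖ = dist B C := by rw [sub_sub_sub_cancel_right, dist_eq_norm]
  have := norm_sub_sq_real (B - A) (C - A)
  rw [n1, n2, n3] at this
  rw [n1, n2]
  congr 2
  linarith

end Pool.Agent.H498Z.Tri
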