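import Mathlib
import Pool.Agent.H498Z.Tri.Vec
import Pool.Agent.Results.MP_fb3fae_co.AllTriangles

set_option autoImplicit false

namespace Pool.Agent.H498Z.Tri

open Module InnerProductGeometry Real

lemma le_on_hull (V : Set E3) (l : E3 →ₗ[ℝ] ℝ) (M : ℝ) (h : ∀ v ∈ V, l v ≤ M) :
    ∀ x ∈ convexHull ℝ V, l x ≤ M := by
  intro x hx
  have : convexHull ℝ V ⊆ {x | l x ≤ M} :=
    convexHull_min h (convex_halfSpace_le l.isLinear M)
  exact this hx

lemma eq_on_hull (V : Set E3) (l : E3 →ₗ[ℝ] ℝ) (M : ℝ) (h : ∀ v ∈ V, l v = M) :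
    ∀ x ∈ convexHull ℝ V, l x = M := by
  intro x hx
  have h1 := le_on_hull V l M (fun v hv => (h v hv).le) x hx
  have h2 := le_on_hull V (-l) (-M) (fun v hv => by simp [h v hv]) x hx
  simp at h2
  linarith

/-- a supporting functional with a two-dimensional contact set gives a two-face -/
lemma twoFace_of (P : Set E3) (l : E3 →ₗ[ℝ] ℝ) (hl : l ≠ 0) (A : E3) (hA : A ∈ P)
    (hle : ∀ x ∈ P, l x ≤ l A)
    (hd : 2 ≤ finrank ℝ (vectorSpan ℝ {x | x ∈ P ∧ l x = l A})) :
    IsTwoFace P {x | x ∈ P ∧ l x = l A} := by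
  refine ⟨?_, ⟨A, hA, rfl⟩, le_antisymm ?_ hd⟩
  · intro _
    refine ⟨LinearMap.toContinuousLinearMap l, ?_⟩
    ext x
    simp only [Set.mem_ofPred_eq, LinearMap.coe_toContinuousLinearMap']
    constructor
    · rintro ⟨hx, he⟩
      exact ⟨hx, fun y hy => he ▸ hle y hy⟩
    · rintro ⟨hx, he⟩
      exact ⟨hx, le_antisymm (hle x hx) (he A hA)⟩
  · have h1 : vectorSpan ℝ {x | x ∈ P ∧ l x = l A} ≤ LinearMap.ker l := by
      rw [vectorSpan_def, Submodule.span_le]
      rintro _ ⟨x, hx, y, hy, rfl⟩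
      simp [hx.2, hy.2]
    have h2 : finrank ℝ (LinearMap.ker l) = 2 := by
      have h3 := Module.Dual.finrank_ker_add_one_of_ne_zero (f := l) hl
      simp at h3
      omega
    exact h2 ▸ Submodule.finrank_mono h1

lemma two_le_finrank {S : Set E3} {X Y Z : E3} (hX : X ∈ S) (hY : Y ∈ S) (hZ : Z ∈ S)
    (h : LinearIndependent ℝ ![Y - X, Z - X]) : 2 ≤ finrank ℝ (vectorSpan ℝ S) := by
  have h1 : Submodule.span ℝ (Set.range ![Y - X, Z - X]) ≤ vectorSpan ℝ S := by
    rw [Submodule.span_le]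
    rintro _ ⟨i, rfl⟩
    fin_cases i
    · exact vsub_mem_vectorSpan ℝ hY hX
    · exact vsub_mem_vectorSpan ℝ hZ hX
  have h2 := finrank_span_eq_card h
  simp only [Fintype.card_fin] at h2
  have h3 := Submodule.finrank_mono h1
  rw [h2] at h3
  exact h3

/-- rotating a supporting plane until it meets a new vertex -/
lemma rotate (V : Finset E3) (A : E3) (l m : E3 →ₗ[ℝ] ℝ) (hl : ∀ v ∈ V, l v ≤ l A)
    (hex : ∃ v ∈ V, l v < l A) (hm : ∀ v ∈ V, l v = l A → m v ≤ m A) :
    ∃ τ : ℝ, ∃ D ∈ V, l D < l A ∧ (m + τ • l) D = (m + τ • l) A ∧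
      ∀ v ∈ V, (m + τ • l) v ≤ (m + τ • l) A := by
  classical
  obtain ⟨D, hD, hmax⟩ := Finset.exists_max_image (V.filter (fun v => l v < l A))
    (fun v => (m v - m A) / (l A - l v)) (by
      obtain ⟨v, hv, h⟩ := hex
      exact ⟨v, Finset.mem_filter.2 ⟨hv, h⟩⟩)
  obtain ⟨hDV, hDl⟩ := Finset.mem_filter.1 hD
  refine ⟨(m D - m A) / (l A - l D), D, hDV, hDl, ?_, ?_⟩
  · have : l A - l D ≠ 0 := by linarith
    simp only [LinearMap.add_apply, LinearMap.smul_apply, smul_eq_mul]
    field_simp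
    ring
  · intro v hv
    simp only [LinearMap.add_apply, LinearMap.smul_apply, smul_eq_mul]
    rcases (hl v hv).lt_or_eq with h | h
    · have h1 := hmax v (Finset.mem_filter.2 ⟨hv, h⟩)
      have h2 : 0 < l A - l v := by linarith
      rw [div_le_iff₀ h2] at h1
      linarith
    · have := hm v hv h
      rw [h]; linarith

lemma exists_lt_of_interior (V : Finset E3) (hint : (interior (convexHull ℝ (V : Set E3))).Nonempty)
    (l : E3 →ₗ[ℝ] ℝ) (hl : l ≠ 0) (M : ℝ) : ∃ v ∈ V, l v ≠ M := by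
  by_contra hc
  push Not at hc
  have h1 := eq_on_hull (V : Set E3) l M hc
  obtain ⟨x, hx⟩ := hint
  rw [mem_interior_iff_mem_nhds, Metric.mem_nhds_iff] at hx
  obtain ⟨ε, hε, hb⟩ := hx
  apply hl
  ext w
  have hw : 0 < ‖w‖ + 1 := by positivity
  have h2 : x + (ε / (‖w‖ + 1)) • w ∈ Metric.ball x ε := by
    rw [mem_ball_iff_norm, add_sub_cancel_left, norm_smul, Real.norm_of_nonneg (by positivity),
      div_mul_eq_mul_div, div_lt_iff₀ hw]
    nlinarith
  have h3 := h1 _ (hb h2)
  have h4 := h1 _ (hb (Metric.mem_ball_self hε))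
  rw [map_add, map_smul, h4] at h3
  have h5 : (ε / (‖w‖ + 1)) * l w = 0 := by simpa using h3
  have h6 : ε / (‖w‖ + 1) ≠ 0 := by positivity
  simpa using (mul_eq_zero.1 h5).resolve_left h6

lemma exists_twoFace (P : Set E3) (hP : IsConvexPolyhedron P) : ∃ F, IsTwoFace P F := by
  classical
  obtain ⟨⟨V, rfl⟩, hint⟩ := hP
  set P := convexHull ℝ (V : Set E3) with hPdef
  have key : ∀ k : ℕ, k ≤ 2 → ∃ l : E3 →ₗ[ℝ] ℝ, l ≠ 0 ∧ ∃ A ∈ V, (∀ v ∈ V, l v ≤ l A) ∧
      k ≤ finrank ℝ (Submodule.span ℝ ((fun v => v - A) '' {v | v ∈ V ∧ l v = l A})) := by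
    intro k
    induction k with
    | zero =>
      intro _
      have hl : (tl !₂[1, 0, 0] !₂[0, 1, 0]) ≠ 0 := by
        intro h
        have := congrArg (fun f : E3 →ₗ[ℝ] ℝ => f !₂[0, 0, 1]) h
        simp [triple] at this
      obtain ⟨v, hv, _⟩ := exists_lt_of_interior V hint _ hl 0
      obtain ⟨A, hA, hmax⟩ := Finset.exists_max_image V (tl !₂[1, 0, 0] !₂[0, 1, 0]) ⟨v, hv⟩
      exact ⟨_, hl, A, hA, hmax, Nat.zero_le _⟩
    | succ k ih =>
      intro hk
      obtain ⟨l, hl, A, hA, hmax, hd⟩ := ih (by omega)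
      set W := Submodule.span ℝ ((fun v => v - A) '' {v | v ∈ V ∧ l v = l A}) with hW
      by_cases hbig : k + 1 ≤ finrank ℝ W
      · exact ⟨l, hl, A, hA, hmax, hbig⟩
      have hWk : W ≤ LinearMap.ker l := by
        rw [hW, Submodule.span_le]
        rintro _ ⟨x, hx, rfl⟩
        simp [hx.2]
      have h2 : finrank ℝ (LinearMap.ker l) = 2 := by
        have h3 := Module.Dual.finrank_ker_add_one_of_ne_zero (f := l) hl
        simp at h3
        omega
      have hne : W ≠ LinearMap.ker l := by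
        intro h
        rw [h] at hbig
        omega
      obtain ⟨z, hz, hzW⟩ := SetLike.exists_of_lt (lt_of_le_of_ne hWk hne)
      obtain ⟨m, hmz, hmW⟩ := Submodule.exists_dual_map_eq_bot_of_notMem hzW inferInstance
      have hm0 : ∀ w ∈ W, m w = 0 := by
        intro w hw
        have : m w ∈ W.map m := Submodule.mem_map_of_mem hw
        rw [hmW] at this
        simpa using this
      have hmv : ∀ v ∈ V, l v = l A → m v = m A := by
        intro v hv h
        have := hm0 (v - A) (Submodule.subset_span ⟨v, ⟨hv, h⟩, rfl⟩)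
        rw [map_sub] at this
        linarith
      obtain ⟨v0, hv0, hv0'⟩ := exists_lt_of_interior V hint l hl (l A)
      obtain ⟨τ, D, hDV, hDl, hDe, hall⟩ := rotate V A l m hmax
        ⟨v0, hv0, lt_of_le_of_ne (hmax v0 hv0) hv0'⟩ (fun v hv h => (hmv v hv h).le)
      refine ⟨m + τ • l, ?_, A, hA, hall, ?_⟩
      · intro h
        have := congrArg (fun f : E3 →ₗ[ℝ] ℝ => f z) h
        have hz' : l z = 0 := hz
        simp [hz'] at this
        exact hmz this
      · have hlt : W < Submodule.span ℝ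
            ((fun v => v - A) '' {v | v ∈ V ∧ (m + τ • l) v = (m + τ • l) A}) := by
          refine lt_of_le_of_ne ?_ ?_
          · apply Submodule.span_mono
            apply Set.image_mono
            rintro v ⟨hv, h⟩
            refine ⟨hv, ?_⟩
            simp [hmv v hv h, h]
          · intro h
            have h1 : D - A ∈ W := by
              rw [h]
              exact Submodule.subset_span ⟨D, ⟨hDV, hDe⟩, rfl⟩
            have h2 : l (D - A) = 0 := hWk h1
            rw [map_sub] at h2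
            linarith
        have := Submodule.finrank_lt_finrank_of_lt hlt
        omega
  obtain ⟨l, hl, A, hA, hmax, hd⟩ := key 2 le_rfl
  have hAP : A ∈ P := subset_convexHull ℝ _ hA
  refine ⟨_, twoFace_of P l hl A hAP (le_on_hull _ l _ hmax) (hd.trans (Submodule.finrank_mono ?_))⟩
  rw [Submodule.span_le]
  rintro _ ⟨x, hx, rfl⟩
  exact vsub_mem_vectorSpan ℝ (⟨subset_convexHull ℝ _ hx.1, hx.2⟩ : x ∈ {x | x ∈ P ∧ l x = l A})
    (⟨hAP, rfl⟩ : A ∈ {x | x ∈ P ∧ l x = l A})

/-- an oriented triangular face -/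
structure Good (P : Set E3) (A B C : E3) : Prop where
  hA : A ∈ P.extremePoints ℝ
  hB : B ∈ P.extremePoints ℝ
  hC : C ∈ P.extremePoints ℝ
  sub : convexHull ℝ {A, B, C} ⊆ P
  le : ∀ x ∈ P, triple (B - A) (C - A) (x - A) ≤ 0
  eq : ∀ x ∈ P, triple (B - A) (C - A) (x - A) = 0 → x ∈ convexHull ℝ {A, B, C}
  ind : LinearIndependent ℝ ![B - A, C - A]

lemma triple_rot (A B C x : E3) :
    triple (C - B) (A - B) (x - B) = triple (B - A) (C - A) (x - A) := by
  simp [triple]; ring

lemma indep_rot {A B C : E3} (h : LinearIndependent ℝ ![B - A, C - A]) :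
    LinearIndependent ℝ ![C - B, A - B] := by
  obtain ⟨n, hn⟩ := exists_triple_ne h
  apply indep_of_triple (n := n)
  have := triple_rot A B C (n + B)
  have e : triple (B - A) (C - A) (n + B - A) = triple (B - A) (C - A) n := by
    simp [triple]; ring
  rw [e, add_sub_cancel_right] at this
  rw [this]; exact hn

lemma set_rot (A B C : E3) : ({B, C, A} : Set E3) = {A, B, C} := by
  ext x; simp only [Set.mem_insert_iff, Set.mem_singleton_iff]; tauto

lemma extreme_of_indep {A B C : E3} (h : LinearIndependent ℝ ![B - A, C - A]) :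
    A ∈ (convexHull ℝ ({A, B, C} : Set E3)).extremePoints ℝ := by
  classical
  obtain ⟨n, hn⟩ := exists_triple_ne h
  set δ := triple (B - A) (C - A) n with hδ
  let l : E3 →ₗ[ℝ] ℝ := (-δ) • (tl (C - A) n + tl n (B - A))
  have hδ2 : 0 < δ * δ := mul_self_pos.2 hn
  have hB : l B = l A - δ * δ := by
    simp only [l, hδ, LinearMap.smul_apply, LinearMap.add_apply, tl_apply, smul_eq_mul]
    simp [triple]; ring
  have hC : l C = l A - δ * δ := by
    simp only [l, hδ, LinearMap.smul_apply, LinearMap.add_apply, tl_apply, smul_eq_mul]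
    simp [triple]; ring
  have hV : ∀ v ∈ ({A, B, C} : Finset E3), l v ≤ l A := by
    intro v hv
    simp only [Finset.mem_insert, Finset.mem_singleton] at hv
    rcases hv with rfl | rfl | rfl <;> linarith
  have hco : (({A, B, C} : Finset E3) : Set E3) = {A, B, C} := by simp
  have hle : ∀ x ∈ convexHull ℝ ({A, B, C} : Set E3), l x ≤ l A :=
    le_on_hull _ l _ (fun v hv => hV v (by rw [← hco] at hv; exact hv))
  have heq : ∀ x ∈ convexHull ℝ ({A, B, C} : Set E3), l x = l A → x = A := by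
    intro x hx h0
    have := Pool.Agent.Results.MP_fb3fae_co.AllTriangles.mem_hull_of_max {A, B, C} l (l A) hV x
      (by rw [hco]; exact hx) h0
    have h1 : {v | v ∈ ({A, B, C} : Finset E3) ∧ l v = l A} ⊆ {A} := by
      rintro v ⟨hv, hv'⟩
      simp only [Finset.mem_insert, Finset.mem_singleton] at hv
      rcases hv with rfl | rfl | rfl
      · rfl
      · linarith
      · linarith
    have h2 := convexHull_mono (𝕜 := ℝ) h1 this
    simpa using h2
  rw [mem_extremePoints]
  refine ⟨subset_convexHull ℝ _ (by simp), ?_⟩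
  rintro x hx y hy ⟨a, b, ha, hb, hab, hs⟩
  have h1 := hle x hx
  have h2 := hle y hy
  have h3 : a * l x + b * l y = l A := by
    rw [← hs]; simp [map_add, map_smul]
  have h4 : l A = a * l A + b * l A := by rw [← add_mul, hab, one_mul]
  exact ⟨heq x hx (by nlinarith), heq y hy (by nlinarith)⟩

lemma Good.rot {P : Set E3} {A B C : E3} (h : Good P A B C) : Good P B C A := by
  have hs : ({B, C, A} : Set E3) = {A, B, C} := by
    ext x; simp only [Set.mem_insert_iff, Set.mem_singleton_iff]; tauto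
  refine ⟨h.hB, h.hC, h.hA, hs ▸ h.sub, ?_, ?_, ?_⟩
  · intro x hx; rw [triple_rot]; exact h.le x hx
  · intro x hx he; rw [triple_rot] at he; rw [hs]; exact h.eq x hx he
  · exact indep_rot h.ind

lemma Good.mem_of_extreme {P : Set E3} {A B C : E3} (h : Good P A B C) {X : E3}
    (hX : X ∈ P.extremePoints ℝ) (hm : X ∈ convexHull ℝ {A, B, C}) : X = A ∨ X = B ∨ X = C := by
  have h1 : X ∈ (convexHull ℝ {A, B, C}).extremePoints ℝ :=
    inter_extremePoints_subset_extremePoints_of_subset h.sub ⟨hm, hX⟩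
  have := extremePoints_convexHull_subset h1
  simpa using this

lemma Good.vertex_cases {P : Set E3} {A B C : E3} (h : Good P A B C) {X : E3}
    (hX : X ∈ P.extremePoints ℝ) :
    0 < - triple (B - A) (C - A) (X - A) ∨ X = A ∨ X = B ∨ X = C := by
  rcases (h.le X hX.1).lt_or_eq with h1 | h1
  · left; linarith
  · right; exact h.mem_of_extreme hX (h.eq X hX.1 h1)

lemma range_three (t : Fin 3 → E3) : Set.range t = {t 0, t 1, t 2} := by
  ext x
  simp only [Set.mem_range, Set.mem_insert_iff, Set.mem_singleton_iff]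
  constructor
  · rintro ⟨m, rfl⟩
    fin_cases m <;> simp
  · rintro (rfl | rfl | rfl)
    exacts [⟨0, rfl⟩, ⟨1, rfl⟩, ⟨2, rfl⟩]

lemma indep_of_affine {t : Fin 3 → E3} (ht : AffineIndependent ℝ t) :
    LinearIndependent ℝ ![t 1 - t 0, t 2 - t 0] := by
  have h1 := (affineIndependent_iff_linearIndependent_vsub ℝ t 0).1 ht
  let f : Fin 2 → {x : Fin 3 // x ≠ 0} := ![⟨1, by decide⟩, ⟨2, by decide⟩]
  have hf : Function.Injective f := by
    intro u v huv
    fin_cases u <;> fin_cases v <;> simp_all [f]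
  have h2 := h1.comp f hf
  have h3 : ![t 1 - t 0, t 2 - t 0] = (fun m : {x : Fin 3 // x ≠ 0} => t m -ᵥ t 0) ∘ f := by
    ext1 i
    fin_cases i <;> rfl
  rw [h3]; exact h2

lemma affine_map {t : Fin 3 → E3} (ht : AffineIndependent ℝ t) (g : E3 ≃ᵢ E3) :
    AffineIndependent ℝ (g ∘ t) :=
  ht.map' g.toRealAffineIsometryEquiv.toAffineEquiv.toAffineMap g.injective

lemma image_hull (g : E3 ≃ᵢ E3) (t : Fin 3 → E3) :
    g '' convexHull ℝ (Set.range t) = convexHull ℝ {g (t 0), g (t 1), g (t 2)} := by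
  rw [Pool.Agent.Results.MP_fb3fae_co.AllTriangles.image_convexHull_isometry, ← Set.range_comp,
    range_three]
  rfl

/-- the exposing functional of a triangular face -/
lemma exposed_data {P F : Set E3} (hF : IsTwoFace P F) {A B C : E3}
    (he : F = convexHull ℝ {A, B, C}) :
    ∃ l : E3 →ₗ[ℝ] ℝ, l B = l A ∧ l C = l A ∧ (∀ x ∈ P, l x ≤ l A) ∧
      ∀ x ∈ P, l x = l A → x ∈ F := by
  obtain ⟨l, hl⟩ := hF.1 hF.2.1
  have hA : A ∈ F := he ▸ subset_convexHull ℝ _ (by simp)
  have hB : B ∈ F := he ▸ subset_convexHull ℝ _ (by simp)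
  have hC : C ∈ F := he ▸ subset_convexHull ℝ _ (by simp)
  rw [hl] at hA hB hC
  refine ⟨l.toLinearMap, le_antisymm (hA.2 B hB.1) (hB.2 A hA.1),
    le_antisymm (hA.2 C hC.1) (hC.2 A hA.1), hA.2, ?_⟩
  intro x hx h
  rw [hl]
  refine ⟨hx, fun y hy => ?_⟩
  have := hA.2 y hy
  have h' : l x = l A := h
  rw [h']; exact this

lemma good_of_face {P F : Set E3} (hF : IsTwoFace P F) {s : Fin 3 → E3}
    (hs : AffineIndependent ℝ s) (he : F = convexHull ℝ {s 0, s 1, s 2})
    (hle : ∀ x ∈ P, triple (s 1 - s 0) (s 2 - s 0) (x - s 0) ≤ 0) : Good P (s 0) (s 1) (s 2) := by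
  have hind := indep_of_affine hs
  have hext : ∀ i, s i ∈ P.extremePoints ℝ := by
    intro i
    apply hF.1.isExtreme.extremePoints_subset_extremePoints
    rw [he]
    fin_cases i
    · exact extreme_of_indep hind
    · rw [← set_rot]; exact extreme_of_indep (indep_rot hind)
    · rw [← set_rot, ← set_rot]; exact extreme_of_indep (indep_rot (indep_rot hind))
  refine ⟨hext 0, hext 1, hext 2, he ▸ hF.1.subset, hle, ?_, hind⟩
  intro x hx h0
  obtain ⟨l, hB, hC, _, hmem⟩ := exposed_data hF he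
  obtain ⟨n, hn⟩ := exists_triple_ne hind
  have hc := congrArg l (cramer (s 1 - s 0) (s 2 - s 0) n (x - s 0))
  simp only [map_smul, map_add, map_sub, hB, hC, sub_self, smul_eq_mul, mul_zero, h0,
    zero_mul, add_zero] at hc
  have := (mul_eq_zero.1 hc).resolve_left hn
  rw [← he]
  exact hmem x hx (by linarith)

end Pool.Agent.H498Z.Tri
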