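import Mathlib
import Pool.Agent.H498Z.Tri.Face

set_option autoImplicit false

namespace Pool.Agent.H498Z.Tri

open Module InnerProductGeometry Real

/-- the three side lengths, in the order of the orientation -/
def Lab (p q r : ℝ) (A B C : E3) : Prop := dist A B = p ∧ dist B C = q ∧ dist C A = r

/-- every two-face is an oriented triangle with sides `p, q, r` in cyclic order -/
def AllGood (p q r : ℝ) (P : Set E3) : Prop :=
  ∀ F, IsTwoFace P F → ∃ A B C, F = convexHull ℝ {A, B, C} ∧ Good P A B C ∧ Lab p q r A B C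

lemma AllGood.rot {p q r : ℝ} {P : Set E3} (h : AllGood p q r P) : AllGood q r p P := by
  intro F hF
  obtain ⟨A, B, C, he, hg, h1, h2, h3⟩ := h F hF
  exact ⟨B, C, A, by rw [set_rot]; exact he, hg.rot, h2, h3, h1⟩

lemma allGood_of {t : Fin 3 → E3} (ht : AffineIndependent ℝ t) {P : Set E3}
    (h : ∀ F, IsTwoFace P F → IsOutwardCopy t P F) :
    AllGood (dist (t 0) (t 1)) (dist (t 1) (t 2)) (dist (t 2) (t 0)) P := by
  intro F hF
  obtain ⟨g, he, hle⟩ := h F hF
  rw [image_hull] at he
  refine ⟨g (t 0), g (t 1), g (t 2), he, good_of_face hF (affine_map ht g) he hle, ?_, ?_, ?_⟩ <;>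
    exact g.dist_eq _ _

lemma next_face {p q r : ℝ} (hpq : p ≠ q) (hqr : q ≠ r) (hrp : r ≠ p) {P : Set E3}
    (hP : IsConvexPolyhedron P) (hall : AllGood p q r P) {A B C : E3} (hg : Good P A B C)
    (hl : Lab p q r A B C) :
    ∃ D, Good P A C D ∧ Lab r p q A C D ∧ 0 < - triple (B - A) (C - A) (D - A) := by
  classical
  obtain ⟨⟨V, hV⟩, hint⟩ := hP
  have hVP : ∀ v ∈ V, v ∈ P := fun v hv => hV ▸ subset_convexHull ℝ _ hv
  obtain ⟨n, hn⟩ := exists_triple_ne hg.ind
  set l := tl (B - A) (C - A) with hldef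
  have hl0 : l ≠ 0 := by
    intro h
    apply hn
    have := congrArg (fun f : E3 →ₗ[ℝ] ℝ => f n) h
    simpa [hldef] using this
  have hlsub : ∀ x, l x - l A = triple (B - A) (C - A) (x - A) := by
    intro x; rw [← map_sub]; rfl
  have hle : ∀ v ∈ V, l v ≤ l A := by
    intro v hv
    have := hg.le v (hVP v hv)
    linarith [hlsub v]
  obtain ⟨x0, hx0, hx0'⟩ := exists_lt_of_interior V (hV ▸ hint) l hl0 (l A)
  have hx0lt : l x0 < l A := lt_of_le_of_ne (hle x0 hx0) hx0'
  set m := tl (C - A) (x0 - A) with hmdef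
  have hmsub : ∀ x, m x - m A = triple (C - A) (x0 - A) (x - A) := by
    intro x; rw [← map_sub]; rfl
  have hmB : m B < m A := by
    have h1 := hmsub B
    have h2 := hlsub x0
    rw [← triple_cyc] at h1
    linarith
  have hmC : m C = m A := by
    have h1 := hmsub C
    have : triple (C - A) (x0 - A) (C - A) = 0 := by simp [triple]; ring
    linarith
  have hlB : l B = l A := by
    have h1 := hlsub B
    have : triple (B - A) (C - A) (B - A) = 0 := by simp [triple]; ring
    linarith
  have hlC : l C = l A := by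
    have h1 := hlsub C
    have : triple (B - A) (C - A) (C - A) = 0 := by simp [triple]; ring
    linarith
  have hm : ∀ v ∈ V, l v = l A → m v ≤ m A := by
    intro v hv h
    have h1 := hg.eq v (hVP v hv) (by linarith [hlsub v])
    refine le_on_hull _ m (m A) ?_ v h1
    intro w hw
    simp only [Set.mem_insert_iff, Set.mem_singleton_iff] at hw
    rcases hw with rfl | rfl | rfl
    · exact le_rfl
    · exact hmB.le
    · exact hmC.le
  obtain ⟨τ, D0, hD0V, hD0l, hD0e, hallv⟩ := rotate V A l m hle ⟨x0, hx0, hx0lt⟩ hm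
  set φ := m + τ • l with hφ
  have hφB : φ B < φ A := by simp [hφ, hlB, hmB]
  have hφC : φ C = φ A := by simp [hφ, hlC, hmC]
  have hφ0 : φ ≠ 0 := by
    intro h; rw [h] at hφB; simp at hφB
  have hAP : A ∈ P := hg.hA.1
  have hCP : C ∈ P := hg.hC.1
  have hD0t : triple (B - A) (C - A) (D0 - A) < 0 := by linarith [hlsub D0]
  have hface : IsTwoFace P {x | x ∈ P ∧ φ x = φ A} := by
    refine twoFace_of P φ hφ0 A hAP (hV ▸ le_on_hull _ φ _ hallv) ?_
    refine two_le_finrank (X := A) (Y := C) (Z := D0) ⟨hAP, rfl⟩ ⟨hCP, hφC⟩ ⟨hVP _ hD0V, hD0e⟩ ?_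
    apply indep_of_triple (n := B - A)
    rw [← triple_cyc]
    exact hD0t.ne
  obtain ⟨X, Y, Z, he, hg', hl'⟩ := hall _ hface
  have hAin : A ∈ convexHull ℝ {X, Y, Z} := by rw [← he]; exact ⟨hAP, rfl⟩
  have hCin : C ∈ convexHull ℝ {X, Y, Z} := by rw [← he]; exact ⟨hCP, hφC⟩
  have hDin : D0 ∈ convexHull ℝ {X, Y, Z} := by rw [← he]; exact ⟨hVP _ hD0V, hD0e⟩
  have hAc := hg'.mem_of_extreme hg.hA hAin
  have hCc := hg'.mem_of_extreme hg.hC hCin
  have hAC : A ≠ C := by
    intro h
    rw [← h] at hn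
    simp [triple] at hn
  -- the third vertex is off the plane of the first face
  have third : ∀ W : E3, W ∈ P → D0 ∈ convexHull ℝ ({A, C, W} : Set E3) →
      0 < - triple (B - A) (C - A) (W - A) := by
    intro W hW hD
    rcases (hg.le W hW).lt_or_eq with h | h
    · linarith
    · exfalso
      have := eq_on_hull _ l (l A) (by
        intro w hw
        simp only [Set.mem_insert_iff, Set.mem_singleton_iff] at hw
        rcases hw with rfl | rfl | rfl
        · rfl
        · exact hlC
        · linarith [hlsub w]) D0 hD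
      linarith
  have bad : ∀ W : E3, Good P A W C → D0 ∈ convexHull ℝ ({A, W, C} : Set E3) → False := by
    intro W hW hD
    have h1 := third W hW.hB.1 (by rw [Set.pair_comm C W]; exact hD)
    have h2 := hW.le B hg.hB.1
    rw [triple_swap] at h2
    linarith
  have good : ∀ (W : E3) (a b c : ℝ), Good P A C W → D0 ∈ convexHull ℝ ({A, C, W} : Set E3) →
      Lab a b c A C W → (a = p ∧ b = q ∧ c = r ∨ a = q ∧ b = r ∧ c = p ∨ a = r ∧ b = p ∧ c = q) →
      ∃ D, Good P A C D ∧ Lab r p q A C D ∧ 0 < - triple (B - A) (C - A) (D - A) := by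
    intro W a b c hW hD hL hor
    have hr : a = r := by rw [← hL.1, ← hl.2.2, dist_comm]
    rcases hor with ⟨h1, h2, h3⟩ | ⟨h1, h2, h3⟩ | ⟨h1, h2, h3⟩
    · exact absurd (hr.symm.trans h1) hrp
    · exact absurd (h1.symm.trans hr) hqr
    · subst h1 h2 h3
      exact ⟨W, hW, hL, third W hW.hC.1 hD⟩
  obtain ⟨l1, l2, l3⟩ := hl'
  rcases hAc with rfl | rfl | rfl <;> rcases hCc with rfl | rfl | rfl
  · exact absurd rfl hAC
  · exact good Z p q r hg' hDin ⟨l1, l2, l3⟩ (Or.inl ⟨rfl, rfl, rfl⟩)
  · exact (bad Y hg' hDin).elim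
  · exact (bad Z hg'.rot (by rw [set_rot]; exact hDin)).elim
  · exact absurd rfl hAC
  · exact good X q r p hg'.rot (by rw [set_rot]; exact hDin) ⟨l2, l3, l1⟩
      (Or.inr (Or.inl ⟨rfl, rfl, rfl⟩))
  · exact good Y r p q hg'.rot.rot (by rw [set_rot, set_rot]; exact hDin) ⟨l3, l1, l2⟩
      (Or.inr (Or.inr ⟨rfl, rfl, rfl⟩))
  · exact (bad X hg'.rot.rot (by rw [set_rot, set_rot]; exact hDin)).elim
  · exact absurd rfl hAC

lemma Lab.angle {p q r : ℝ} {A B C : E3} (h : Lab p q r A B C) :
    angle (B - A) (C - A) = ang p r q := by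
  rw [angle_eq_ang, h.1, h.2.1, h.2.2]

lemma ang_sum {p q r : ℝ} {A B C : E3} (h : Lab p q r A B C) (hAB : B ≠ A) :
    ang p r q + ang q p r + ang r q p = π := by
  have h1 := h.angle
  have h2 : Lab q r p B C A := ⟨h.2.1, h.2.2, h.1⟩
  have h3 : Lab r p q C A B := ⟨h.2.2, h.1, h.2.1⟩
  rw [← h1, ← h2.angle, ← h3.angle]
  have := EuclideanGeometry.angle_add_angle_add_angle_eq_pi (p₁ := A) (p₂ := B) C hAB
  simp only [EuclideanGeometry.angle, vsub_eq_sub] at this
  rw [angle_comm (B - A) (C - A), angle_comm (C - B), angle_comm (A - C)]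
  linarith

lemma scalene_acute {p q r : ℝ} (hpq : p ≠ q) (hqr : q ≠ r) (hrp : r ≠ p) {P : Set E3}
    (hP : IsConvexPolyhedron P) (hall : AllGood p q r P) :
    ang p r q < π / 2 ∧ ang q p r < π / 2 ∧ ang r q p < π / 2 := by
  obtain ⟨F, hF⟩ := exists_twoFace P hP
  obtain ⟨A, B, C, -, g0, l0⟩ := hall F hF
  obtain ⟨W1, g1, l1, d0⟩ := next_face hpq hqr hrp hP hall g0 l0
  obtain ⟨W2, g2, l2, d1⟩ := next_face hrp hpq hqr hP hall.rot.rot g1 l1
  obtain ⟨W3, g3, l3, d2⟩ := next_face hqr hrp hpq hP hall.rot g2 l2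
  obtain ⟨W4, g4, l4, d3⟩ := next_face hpq hqr hrp hP hall g3 l3
  obtain ⟨W5, g5, l5, d4⟩ := next_face hrp hpq hqr hP hall.rot.rot g4 l4
  have hne : ∀ {X Y Z : E3}, Good P X Y Z → Y ≠ X := by
    intro X Y Z h he
    obtain ⟨n, hn⟩ := exists_triple_ne h.ind
    rw [he] at hn
    simp [triple] at hn
  have hsum := ang_sum l0 (hne g0)
  have a0 := l0.angle
  have a1 := l1.angle
  have a2 := l2.angle
  have a3 := l3.angle
  have a4 := l4.angle
  have a5 := l5.angle
  have dB : dist A B = p := l0.1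
  have dC : dist A C = r := l1.1
  have dW1 : dist A W1 = q := l2.1
  have dW2 : dist A W2 = p := l3.1
  have dW3 : dist A W3 = r := l4.1
  have dW4 : dist A W4 = q := l5.1
  have dW5 : dist A W5 = p := by rw [dist_comm]; exact l5.2.2
  rcases g0.vertex_cases g3.hB with n2 | h | h | h
  · exfalso
    have n3 : 0 < - triple (B - A) (C - A) (W3 - A) := by
      rcases g0.vertex_cases g4.hB with n3 | h | h | h
      · exact n3
      · exact absurd h (hne g4)
      · rw [h, dB] at dW3; exact absurd dW3.symm hrp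
      · subst h
        have := g3.le B g0.hB.1
        rw [triple_swap] at this
        linarith
    have n4 : 0 < - triple (B - A) (C - A) (W4 - A) := by
      rcases g0.vertex_cases g5.hB with n4 | h | h | h
      · exact n4
      · exact absurd h (hne g5)
      · rw [h, dB] at dW4; exact absurd dW4 hpq
      · rw [h, dC] at dW4; exact absurd dW4.symm hqr
    have zero : triple (B - A) (C - A) (C - A) = 0 := by simp [triple]; ring
    have hCA : C ≠ A := hne g1
    have y3 : 0 < - triple (W2 - A) (W3 - A) (C - A) := by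
      rcases g3.vertex_cases g0.hC with y | h | h | h
      · exact y
      · exact absurd h hCA
      · rw [← h, zero] at n2; simp at n2
      · rw [← h, zero] at n3; simp at n3
    have y4 : 0 < - triple (W3 - A) (W4 - A) (C - A) := by
      rcases g4.vertex_cases g0.hC with y | h | h | h
      · exact y
      · exact absurd h hCA
      · rw [← h, zero] at n3; simp at n3
      · rw [← h, zero] at n4; simp at n4
    have y5 : 0 < - triple (W4 - A) (W5 - A) (C - A) := by
      rcases g5.vertex_cases g0.hC with y | h | h | h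
      · exact y
      · exact absurd h hCA
      · rw [← h, zero] at n4; simp at n4
      · rw [← h, dC] at dW5; exact absurd dW5 hrp
    have n5 := g0.le W5 g5.hC.1
    have x5 := g5.le B g0.hB.1
    have := hexagon (B - A) (C - A) (W1 - A) (W2 - A) (W3 - A) (W4 - A) (W5 - A) d0 n2 n3 n4
      (by linarith) d1 d2 d3 d4 y3 y4 y5 (by linarith)
    linarith
  · exact absurd h (hne g3)
  · subst h
    have t0 : triple (W2 - A) (C - A) (W1 - A) ≠ 0 := by linarith
    have t1 : triple (C - A) (W1 - A) (W2 - A) ≠ 0 := by rw [← triple_cyc]; exact t0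
    have t2 : triple (W1 - A) (W2 - A) (C - A) ≠ 0 := by rw [← triple_cyc]; exact t1
    have s0 := angle_strict t0
    have s1 := angle_strict t1
    have s2 := angle_strict t2
    rw [angle_comm (W2 - A) (W1 - A)] at s0
    rw [angle_comm (C - A) (W2 - A)] at s1
    rw [angle_comm (W1 - A) (C - A)] at s2
    refine ⟨?_, ?_, ?_⟩ <;> linarith
  · rw [h, dC] at dW2; exact absurd dW2 hrp

end Pool.Agent.H498Z.Tri
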