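import Mathlib
import Pool.Agent.H498Z.Tri.Main

set_option autoImplicit false

namespace Pool.Agent.H498Z.Tri

open Module InnerProductGeometry Real
open Pool.Agent.Results.MP_fb3fae_co

lemma sign_const {P F : Set E3} (hF : IsTwoFace P F) {A B C : E3}
    (he : F = convexHull ℝ {A, B, C}) :
    (∀ x ∈ P, triple (B - A) (C - A) (x - A) ≤ 0) ∨
      (∀ x ∈ P, 0 ≤ triple (B - A) (C - A) (x - A)) := by
  by_contra hc
  push Not at hc
  obtain ⟨⟨x, hx, hx'⟩, ⟨y, hy, hy'⟩⟩ := hc
  obtain ⟨l, hB, hC, hle, hmem⟩ := exposed_data hF he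
  have hc := congrArg l (cramer (B - A) (C - A) (x - A) (y - A))
  simp only [map_smul, map_add, map_sub, hB, hC, sub_self, smul_eq_mul, mul_zero,
    add_zero, zero_add] at hc
  have h1 := hle x hx
  have h2 := hle y hy
  have h3 : l x = l A := by nlinarith
  have h4 := hmem x hx h3
  rw [he] at h4
  have h5 := eq_on_hull _ (tl (B - A) (C - A)) (tl (B - A) (C - A) A) (by
    intro w hw
    simp only [Set.mem_insert_iff, Set.mem_singleton_iff] at hw
    rcases hw with rfl | rfl | rfl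
    · rfl
    · simp [triple]; ring
    · simp [triple]; ring) x h4
  have h6 : triple (B - A) (C - A) (x - A) = tl (B - A) (C - A) x - tl (B - A) (C - A) A := by
    rw [← map_sub]; rfl
  linarith

lemma outward_of {t : Fin 3 → E3} (ht : AffineIndependent ℝ t) {P : Set E3} {X Y Z : E3}
    (hl : Lab (dist (t 0) (t 1)) (dist (t 1) (t 2)) (dist (t 2) (t 0)) X Y Z)
    (hle : ∀ x ∈ P, triple (Y - X) (Z - X) (x - X) ≤ 0) :
    IsOutwardCopy t P (convexHull ℝ {X, Y, Z}) := by
  obtain ⟨g, g0, g1, g2⟩ := AllTriangles.exists_isometry (t 0) (t 1) (t 2) X Y Z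
    (indep_of_affine ht) hl.1.symm (by rw [dist_comm, ← hl.2.2, dist_comm]) hl.2.1.symm
  refine ⟨g, ?_, ?_⟩
  · rw [image_hull, g0, g1, g2]
  · rw [g0, g1, g2]; exact hle

lemma isosceles_case {t : Fin 3 → E3} (ht : AffineIndependent ℝ t)
    (hiso : dist (t 0) (t 1) = dist (t 1) (t 2) ∨ dist (t 1) (t 2) = dist (t 2) (t 0) ∨
      dist (t 2) (t 0) = dist (t 0) (t 1)) :
    ∃ P : Set E3, IsConvexPolyhedron P ∧ ∀ F, IsTwoFace P F → IsOutwardCopy t P F := by
  obtain ⟨P, hP, hall⟩ := AllTriangles.result t ht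
  refine ⟨P, hP, fun F hF => ?_⟩
  obtain ⟨g, he⟩ := hall F hF
  have he' := he
  rw [image_hull] at he'
  rcases sign_const hF he' with h | h
  · exact ⟨g, he, h⟩
  set A := g (t 0)
  set B := g (t 1)
  set C := g (t 2)
  have dAB : dist A B = dist (t 0) (t 1) := g.dist_eq _ _
  have dBC : dist B C = dist (t 1) (t 2) := g.dist_eq _ _
  have dCA : dist C A = dist (t 2) (t 0) := g.dist_eq _ _
  have hACB : ∀ x ∈ P, triple (C - A) (B - A) (x - A) ≤ 0 := by
    intro x hx
    rw [triple_swap12]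
    linarith [h x hx]
  have hs : ({A, B, C} : Set E3) = {A, C, B} := by rw [Set.pair_comm B C]
  rcases hiso with h1 | h1 | h1
  · rw [he', hs, ← set_rot]
    refine outward_of ht ⟨?_, ?_, ?_⟩ ?_
    · rw [dist_comm, dBC, h1]
    · rw [dist_comm, dAB, h1]
    · rw [dist_comm, dCA]
    · intro x hx; rw [triple_rot]; exact hACB x hx
  · rw [he', hs, ← set_rot, ← set_rot]
    refine outward_of ht ⟨?_, ?_, ?_⟩ ?_
    · rw [dist_comm, dAB]
    · rw [dist_comm, dCA, h1]
    · rw [dist_comm, dBC, h1]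
    · intro x hx; rw [triple_rot, triple_rot]; exact hACB x hx
  · rw [he', hs]
    refine outward_of ht ⟨?_, ?_, ?_⟩ hACB
    · rw [dist_comm, dCA, h1]
    · rw [dist_comm, dBC]
    · rw [dist_comm, dAB, h1]

lemma span_top_of_triple {S : Set E3} {A B C D : E3} (hA : A ∈ S) (hB : B ∈ S) (hC : C ∈ S)
    (hD : D ∈ S) (h : triple (B - A) (C - A) (D - A) ≠ 0) : vectorSpan ℝ S = ⊤ := by
  rw [eq_top_iff]
  intro w _
  have hc := cramer (B - A) (C - A) (D - A) w
  have h1 : B - A ∈ vectorSpan ℝ S := vsub_mem_vectorSpan ℝ hB hA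
  have h2 : C - A ∈ vectorSpan ℝ S := vsub_mem_vectorSpan ℝ hC hA
  have h3 : D - A ∈ vectorSpan ℝ S := vsub_mem_vectorSpan ℝ hD hA
  have h4 : triple (B - A) (C - A) (D - A) • w ∈ vectorSpan ℝ S := by
    rw [hc]
    exact Submodule.add_mem _ (Submodule.add_mem _ (Submodule.smul_mem _ _ h1)
      (Submodule.smul_mem _ _ h2)) (Submodule.smul_mem _ _ h3)
  exact (Submodule.smul_mem_iff _ h).1 h4

lemma tetra_faces {A B C D : E3} (h : triple (B - A) (C - A) (D - A) ≠ 0) {F : Set E3}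
    (hF : IsTwoFace (convexHull ℝ {A, B, C, D}) F) :
    F = convexHull ℝ {A, B, C} ∨ F = convexHull ℝ {B, A, D} ∨ F = convexHull ℝ {C, D, A} ∨
      F = convexHull ℝ {D, C, B} := by
  classical
  obtain ⟨l, hl⟩ := hF.1 hF.2.1
  obtain ⟨x0, hx0⟩ := hF.2.1
  have hx0' := hx0
  rw [hl] at hx0'
  have hco : (({A, B, C, D} : Finset E3) : Set E3) = {A, B, C, D} := by simp
  have hin : ∀ v ∈ ({A, B, C, D} : Set E3), v ∈ convexHull ℝ ({A, B, C, D} : Set E3) :=
    fun v hv => subset_convexHull ℝ _ hv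
  set S : Set E3 := {v | v ∈ ({A, B, C, D} : Finset E3) ∧ l.toLinearMap v = l x0} with hS
  have hFS : F = convexHull ℝ S := by
    apply Set.Subset.antisymm
    · intro x hx
      have hx' := hx
      rw [hl] at hx'
      refine AllTriangles.mem_hull_of_max {A, B, C, D} l.toLinearMap (l x0) ?_ x
        (by rw [hco]; exact hx'.1) (le_antisymm (hx0'.2 x hx'.1) (hx'.2 x0 hx0'.1))
      intro v hv
      exact hx0'.2 v (hin v (by rw [← hco]; exact hv))
    · apply convexHull_min _ (hF.1.convex (convex_convexHull ℝ _))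
      rintro v ⟨hv, hv'⟩
      rw [hl]
      refine ⟨hin v (by rw [← hco]; exact hv), fun y hy => ?_⟩
      have h1 : l v = l x0 := hv'
      rw [h1]; exact hx0'.2 y hy
  have hmem : ∀ v, v ∈ S ↔ (v = A ∨ v = B ∨ v = C ∨ v = D) ∧ l v = l x0 := by
    intro v; simp [hS]
  have small : ∀ X Y : E3, S ⊆ {X, Y} → False := by
    intro X Y hsub
    have := AllTriangles.finrank_le_one_of_subset_pair F X Y (hFS ▸ convexHull_mono hsub)
    rw [hF.2.2] at this
    omega
  have three : ∀ X Y Z : E3, (∀ v, v ∈ S ↔ v = X ∨ v = Y ∨ v = Z) →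
      F = convexHull ℝ {X, Y, Z} := by
    intro X Y Z hh
    rw [hFS]
    congr 1
    ext v
    rw [hh]; simp
  by_cases hA : l A = l x0 <;> by_cases hB : l B = l x0 <;> by_cases hC : l C = l x0 <;>
    by_cases hD : l D = l x0
  · exfalso
    have hsub : S ⊆ F := hFS ▸ subset_convexHull ℝ S
    have := span_top_of_triple (S := F) (hsub ((hmem A).2 ⟨by simp, hA⟩))
      (hsub ((hmem B).2 ⟨by simp, hB⟩)) (hsub ((hmem C).2 ⟨by simp, hC⟩))
      (hsub ((hmem D).2 ⟨by simp, hD⟩)) h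
    have h2 := hF.2.2
    rw [this] at h2
    simp at h2
  · left; apply three; intro v; rw [hmem]
    exact ⟨by rintro ⟨h | h | h | h, h'⟩ <;> first | (rw [h] at h'; contradiction) | simp [h],
      by rintro (h | h | h) <;> exact ⟨by simp [h], by rw [h]; assumption⟩⟩
  · right; left; apply three; intro v; rw [hmem]
    exact ⟨by rintro ⟨h | h | h | h, h'⟩ <;> first | (rw [h] at h'; contradiction) | simp [h],
      by rintro (h | h | h) <;> exact ⟨by simp [h], by rw [h]; assumption⟩⟩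
  · exact (small A B (by
      intro v hv; rw [hmem] at hv
      rcases hv with ⟨h | h | h | h, h'⟩ <;> first | (rw [h] at h'; contradiction) | simp [h])).elim
  · right; right; left; apply three; intro v; rw [hmem]
    exact ⟨by rintro ⟨h | h | h | h, h'⟩ <;> first | (rw [h] at h'; contradiction) | simp [h],
      by rintro (h | h | h) <;> exact ⟨by simp [h], by rw [h]; assumption⟩⟩
  · exact (small A C (by
      intro v hv; rw [hmem] at hv
      rcases hv with ⟨h | h | h | h, h'⟩ <;> first | (rw [h] at h'; contradiction) | simp [h])).elim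
  · exact (small A D (by
      intro v hv; rw [hmem] at hv
      rcases hv with ⟨h | h | h | h, h'⟩ <;> first | (rw [h] at h'; contradiction) | simp [h])).elim
  · exact (small A A (by
      intro v hv; rw [hmem] at hv
      rcases hv with ⟨h | h | h | h, h'⟩ <;> first | (rw [h] at h'; contradiction) | simp [h])).elim
  · right; right; right; apply three; intro v; rw [hmem]
    exact ⟨by rintro ⟨h | h | h | h, h'⟩ <;> first | (rw [h] at h'; contradiction) | simp [h],
      by rintro (h | h | h) <;> exact ⟨by simp [h], by rw [h]; assumption⟩⟩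
  · exact (small B C (by
      intro v hv; rw [hmem] at hv
      rcases hv with ⟨h | h | h | h, h'⟩ <;> first | (rw [h] at h'; contradiction) | simp [h])).elim
  · exact (small B D (by
      intro v hv; rw [hmem] at hv
      rcases hv with ⟨h | h | h | h, h'⟩ <;> first | (rw [h] at h'; contradiction) | simp [h])).elim
  · exact (small B B (by
      intro v hv; rw [hmem] at hv
      rcases hv with ⟨h | h | h | h, h'⟩ <;> first | (rw [h] at h'; contradiction) | simp [h])).elim
  · exact (small C D (by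
      intro v hv; rw [hmem] at hv
      rcases hv with ⟨h | h | h | h, h'⟩ <;> first | (rw [h] at h'; contradiction) | simp [h])).elim
  · exact (small C C (by
      intro v hv; rw [hmem] at hv
      rcases hv with ⟨h | h | h | h, h'⟩ <;> first | (rw [h] at h'; contradiction) | simp [h])).elim
  · exact (small D D (by
      intro v hv; rw [hmem] at hv
      rcases hv with ⟨h | h | h | h, h'⟩ <;> first | (rw [h] at h'; contradiction) | simp [h])).elim
  · exact (small A A (by
      intro v hv; rw [hmem] at hv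
      rcases hv with ⟨h | h | h | h, h'⟩ <;> first | (rw [h] at h'; contradiction) | simp [h])).elim

lemma sq_lt_of_ang {p r q : ℝ} (hp : 0 < p) (hr : 0 < r) (h : ang p r q < π / 2) :
    q ^ 2 < p ^ 2 + r ^ 2 := by
  unfold ang at h
  rw [Real.arccos_lt_pi_div_two] at h
  have h1 : 0 < p * r := mul_pos hp hr
  have := (div_pos_iff_of_pos_right h1).1 h
  linarith

lemma disphenoid {t : Fin 3 → E3} (ht : AffineIndependent ℝ t) {p q r : ℝ}
    (hp : dist (t 0) (t 1) = p) (hq : dist (t 1) (t 2) = q) (hr : dist (t 2) (t 0) = r)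
    (h1 : p ^ 2 < q ^ 2 + r ^ 2) (h2 : q ^ 2 < p ^ 2 + r ^ 2) (h3 : r ^ 2 < p ^ 2 + q ^ 2) :
    ∃ P : Set E3, IsConvexPolyhedron P ∧ ∀ F, IsTwoFace P F → IsOutwardCopy t P F := by
  classical
  have p0 : 0 ≤ p := hp ▸ dist_nonneg
  have q0 : 0 ≤ q := hq ▸ dist_nonneg
  have r0 : 0 ≤ r := hr ▸ dist_nonneg
  obtain ⟨x, hx0, hx⟩ : ∃ x : ℝ, 0 < x ∧ x ^ 2 = (q ^ 2 + r ^ 2 - p ^ 2) / 8 :=
    ⟨√_, Real.sqrt_pos.2 (by linarith), Real.sq_sqrt (by linarith)⟩
  obtain ⟨y, hy0, hy⟩ : ∃ y : ℝ, 0 < y ∧ y ^ 2 = (p ^ 2 + q ^ 2 - r ^ 2) / 8 :=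
    ⟨√_, Real.sqrt_pos.2 (by linarith), Real.sq_sqrt (by linarith)⟩
  obtain ⟨z, hz0, hz⟩ : ∃ z : ℝ, 0 < z ∧ z ^ 2 = (p ^ 2 + r ^ 2 - q ^ 2) / 8 :=
    ⟨√_, Real.sqrt_pos.2 (by linarith), Real.sq_sqrt (by linarith)⟩
  set A := AllTriangles.pt x y z with hA
  set B := AllTriangles.pt x (-y) (-z) with hB
  set C := AllTriangles.pt (-x) y (-z) with hC
  set D := AllTriangles.pt (-x) (-y) z with hD
  have hd : ∀ (a b c a' b' c' s : ℝ), 0 ≤ s →
      (a - a') ^ 2 + (b - b') ^ 2 + (c - c') ^ 2 = s ^ 2 →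
      dist (AllTriangles.pt a b c) (AllTriangles.pt a' b' c') = s := by
    intro a b c a' b' c' s hs h
    rw [AllTriangles.dist_pt, h, Real.sqrt_sq hs]
  have hxyz : 0 < x * y * z := by positivity
  have hT : triple (B - A) (C - A) (D - A) = -16 * (x * y * z) := by
    simp [triple, hA, hB, hC, hD, AllTriangles.pt]; ring
  have hco : (({A, B, C, D} : Finset E3) : Set E3) = {A, B, C, D} := by simp
  refine ⟨convexHull ℝ {A, B, C, D}, ⟨⟨{A, B, C, D}, by rw [hco]⟩, ?_⟩, ?_⟩
  · rw [interior_convexHull_nonempty_iff_affineSpan_eq_top,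
      AffineSubspace.affineSpan_eq_top_iff_vectorSpan_eq_top_of_nonempty ℝ E3 E3 ⟨A, by simp⟩]
    exact span_top_of_triple (A := A) (B := B) (C := C) (D := D) (by simp) (by simp) (by simp)
      (by simp) (by rw [hT]; linarith)
  · intro F hF
    have key : ∀ X Y Z : E3, (∀ v ∈ ({A, B, C, D} : Set E3),
        triple (Y - X) (Z - X) (v - X) ≤ 0) →
        ∀ w ∈ convexHull ℝ ({A, B, C, D} : Set E3), triple (Y - X) (Z - X) (w - X) ≤ 0 := by
      intro X Y Z h w hw
      have e : ∀ u, triple (Y - X) (Z - X) (u - X) =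
          tl (Y - X) (Z - X) u - tl (Y - X) (Z - X) X := by
        intro u; rw [← map_sub]; rfl
      have := le_on_hull _ (tl (Y - X) (Z - X)) (tl (Y - X) (Z - X) X)
        (fun v hv => by linarith [h v hv, e v]) w hw
      linarith [e w]
    rcases tetra_faces (by rw [hT]; linarith) hF with rfl | rfl | rfl | rfl
    all_goals
      refine outward_of ht ⟨?_, ?_, ?_⟩ (key _ _ _ ?_)
      · rw [hp]; exact hd _ _ _ _ _ _ _ p0 (by nlinarith)
      · rw [hq]; exact hd _ _ _ _ _ _ _ q0 (by nlinarith)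
      · rw [hr]; exact hd _ _ _ _ _ _ _ r0 (by nlinarith)
      · intro v hv
        simp only [Set.mem_insert_iff, Set.mem_singleton_iff] at hv
        rcases hv with rfl | rfl | rfl | rfl <;>
          simp [triple, hA, hB, hC, hD, AllTriangles.pt] <;> nlinarith

open EuclideanGeometry in
theorem main (t : Fin 3 → E3) (ht : AffineIndependent ℝ t) :
    (∃ P : Set E3, IsConvexPolyhedron P ∧ ∀ F : Set E3, IsTwoFace P F → IsOutwardCopy t P F) ↔
      ((dist (t 0) (t 1) = dist (t 1) (t 2) ∨ dist (t 1) (t 2) = dist (t 2) (t 0) ∨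
          dist (t 2) (t 0) = dist (t 0) (t 1)) ∨
        (∠ (t 1) (t 0) (t 2) < π / 2 ∧ ∠ (t 2) (t 1) (t 0) < π / 2 ∧
          ∠ (t 0) (t 2) (t 1) < π / 2)) := by
  have l0 : Lab (dist (t 0) (t 1)) (dist (t 1) (t 2)) (dist (t 2) (t 0)) (t 0) (t 1) (t 2) :=
    ⟨rfl, rfl, rfl⟩
  have l1 : Lab (dist (t 1) (t 2)) (dist (t 2) (t 0)) (dist (t 0) (t 1)) (t 1) (t 2) (t 0) :=
    ⟨rfl, rfl, rfl⟩
  have l2 : Lab (dist (t 2) (t 0)) (dist (t 0) (t 1)) (dist (t 1) (t 2)) (t 2) (t 0) (t 1) :=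
    ⟨rfl, rfl, rfl⟩
  have a0 := l0.angle
  have a1 := l1.angle
  have a2 := l2.angle
  simp only [EuclideanGeometry.angle, vsub_eq_sub]
  rw [a0, a1, a2]
  constructor
  · rintro ⟨P, hP, hall⟩
    by_cases h1 : dist (t 0) (t 1) = dist (t 1) (t 2)
    · exact Or.inl (Or.inl h1)
    by_cases h2 : dist (t 1) (t 2) = dist (t 2) (t 0)
    · exact Or.inl (Or.inr (Or.inl h2))
    by_cases h3 : dist (t 2) (t 0) = dist (t 0) (t 1)
    · exact Or.inl (Or.inr (Or.inr h3))
    exact Or.inr (scalene_acute h1 h2 h3 hP (allGood_of ht hall))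
  · rintro (h | ⟨h0, h1, h2⟩)
    · exact isosceles_case ht h
    · have hinj := ht.injective
      have p0 : 0 < dist (t 0) (t 1) := dist_pos.2 (hinj.ne (by decide))
      have q0 : 0 < dist (t 1) (t 2) := dist_pos.2 (hinj.ne (by decide))
      have r0 : 0 < dist (t 2) (t 0) := dist_pos.2 (hinj.ne (by decide))
      have s0 := sq_lt_of_ang p0 r0 h0
      have s1 := sq_lt_of_ang q0 p0 h1
      have s2 := sq_lt_of_ang r0 q0 h2
      exact disphenoid ht rfl rfl rfl (by linarith) s0 (by linarith)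

end Pool.Agent.H498Z.Tri
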